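import Pool.Agent.Helper98.TA.Basic
import Pool.Agent.Helper53.GY.MHQ
import Pool.Agent.Helper46.TA.TER

/-!
Row HQ0 of the sheet TA (MP_7a8f48_an): the trivial algebra has the property of the hull.
-/

set_option linter.unusedSectionVars false

open MeasureTheory Filter Topology Finset
open scoped ComplexConjugate

namespace Pool.Agent.Helper53.TA

open Pool.Agent.Helper98.TW
open Pool.Agent.Helper98.TA
open Pool.Agent.Helper40.TWM (St)
open Pool.Agent.Helper98.GY (JY)
open Pool.Agent.Helper53.GY (fac ae_back)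
open Pool.Agent.Helper46.TA (am_bo_of_inv inc_eq iter_eq)

theorem nat_bezout {k q : ℕ} (hq : q.Prime) (h : Nat.Coprime k q) :
    ∃ a b : ℕ, k * a = 1 + b * q := by
  obtain ⟨m, -, hm⟩ := Nat.exists_mul_mod_eq_one_of_coprime h hq.one_lt
  refine ⟨m, k * m / q, ?_⟩
  have := Nat.div_add_mod (k * m) q
  rw [hm] at this
  linarith [mul_comm q (k * m / q)]

theorem st_HQ0 : ST_HQ0 := by
  intro Ω m0 μ _ S S' p q κ hSt hp hq hpq hJ ψ hψ hψi M hM hMq hV
  have hprob := hJ.prob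
  have hS := St.s1 hSt
  have hTER := (Pool.Agent.Helper46.TA.st_TER Ω μ S S' hSt).2
  have hfst := jy_mp1 hJ
  have hsnd := jy_mp2 hJ
  -- the function of the second coordinate
  have hV1 : AM κ (B2 Ω) (fun z => ψ z.1 ^ M) := by
    have h1 : (J1 (bo : SA Ω) : SA (Ω × Ω)) = bo := MeasurableSpace.comap_bot
    unfold Vi at hV
    rw [h1, jo_bo] at hV
    exact hV
  obtain ⟨g0, hg0, hgψ⟩ := am_iff.1 hV1
  obtain ⟨g, hg, rfl⟩ := fac (π := (Prod.snd : Ω × Ω → Ω)) (ℰ := m0) hg0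
  have hgm : Measurable g := hg
  have hgψ' : ∀ᵐ z ∂κ, ψ z.1 ^ M = g z.2 := hgψ
  have hg1 : UF μ g := by
    refine ⟨hgm, ae_back hsnd (measurableSet_eq_fun hgm.norm measurable_const) ?_⟩
    filter_upwards [hgψ', (uf_J1 hJ hψ).2] with z h1 h2
    rw [← h1, norm_pow, h2, one_pow]
  -- eigenvalues
  obtain ⟨c, hc⟩ := am_bo.1 hψi
  have hcψ := inc_eq hψ hc
  have hc1 : ‖c‖ = 1 := by
    obtain ⟨x, h1, h2, h3⟩ := (hcψ.and ((ae_comp hS.mp hψ.2).and hψ.2)).exists
    rw [h1, norm_mul, h3, mul_one] at h2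
    exact h2
  have hcc : c * conj c = 1 := by
    rw [Complex.mul_conj, Complex.normSq_eq_norm_sq, hc1]
    simp
  have hψp := iter_eq hS.mp hcψ p
  have hmq : Measurable S^[q] := (hS.iterate q).mp.measurable
  have hgq : ∀ᵐ y ∂μ, g (S^[q] y) = c ^ (p * M) * g y := by
    refine ae_back hsnd (measurableSet_eq_fun (hgm.comp hmq) (measurable_const.mul hgm)) ?_
    have h1 := hJ.erg.toMeasurePreserving.quasiMeasurePreserving.ae hgψ'
    have h2 := hfst.quasiMeasurePreserving.ae hψp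
    filter_upwards [hgψ', h1, h2] with z h3 h4 h5
    have h4' : ψ (S^[p] z.1) ^ M = g (S^[q] z.2) := h4
    rw [← h4', h5, mul_pow, ← pow_mul, h3]
  have hginc : Inc μ bo S^[q] g := by
    refine am_bo.2 ⟨c ^ (p * M), ?_⟩
    filter_upwards [hgq, hg1.mul_conj] with y h1 h2
    rw [h1, mul_assoc, h2, mul_one]
  obtain ⟨e, he⟩ := am_bo.1 (hTER q hq.one_le g hg1 hginc)
  have heg := inc_eq hg1 he
  have he1 : ‖e‖ = 1 := by
    obtain ⟨x, h1, h2, h3⟩ := (heg.and ((ae_comp hS.mp hg1.2).and hg1.2)).exists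
    rw [h1, norm_mul, h3, mul_one] at h2
    exact h2
  have heq : e ^ q = c ^ (p * M) := by
    obtain ⟨y, h1, h2, h3⟩ := ((iter_eq hS.mp heg q).and (hgq.and hg1.2)).exists
    have h4 : g y ≠ 0 := by
      intro h0
      rw [h0] at h3
      simp at h3
    exact mul_right_cancel₀ h4 (h1.symm.trans h2)
  -- the root
  have hcop : Nat.Coprime (p * M) q :=
    Nat.Coprime.mul_left ((Nat.coprime_primes hp hq).2 hpq) hMq
  obtain ⟨a, b, hab⟩ := nat_bezout hq hcop
  have hφ : UF μ (fun x => g x ^ a * conj (ψ x) ^ b) := (hg1.pow a).mul (hψ.conj.pow b)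
  have hφi : Inc μ bo S (fun x => g x ^ a * conj (ψ x) ^ b) :=
    inc_mul (inc_pow (am_bo.2 ⟨e, he⟩) a) (inc_pow (inc_conj hψi) b)
  refine ⟨_, hφ, hφi, ?_⟩
  refine am_bo_of_inv (St.e1 hSt) ?_ ?_
  · exact hψ.1.mul (Complex.continuous_conj.measurable.comp (hφ.1.pow_const q))
  · filter_upwards [hcψ, heg] with x h1 h2
    have hce : conj (e ^ q) = conj (c ^ (p * M)) := by rw [heq]
    have key : c * (conj (e ^ a * conj c ^ b) ^ q) = 1 := by
      have h3 : conj (e ^ a * conj c ^ b) ^ q = (conj (e ^ q)) ^ a * c ^ (b * q) := by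
        simp only [map_mul, map_pow, Complex.conj_conj, mul_pow, ← pow_mul]
        rw [mul_comm q a]
      rw [h3, hce, map_pow, ← pow_mul, hab, pow_add, pow_one, mul_comm b q]
      have h4 : (conj c) ^ (q * b) * c ^ (q * b) = 1 := by
        rw [← mul_pow, mul_comm (conj c) c, hcc, one_pow]
      calc c * (conj c * (conj c) ^ (q * b) * c ^ (q * b)) =
          (c * conj c) * ((conj c) ^ (q * b) * c ^ (q * b)) := by ring
        _ = 1 := by rw [hcc, h4, one_mul]
    simp only [h1, h2]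
    have h5 : conj (((e * g x) ^ a * conj (c * ψ x) ^ b) ^ q) =
        (conj (e ^ a * conj c ^ b) ^ q) * conj ((g x ^ a * conj (ψ x) ^ b) ^ q) := by
      simp only [map_mul, map_pow, mul_pow]
      ring
    rw [h5]
    calc c * ψ x * (conj (e ^ a * conj c ^ b) ^ q * conj ((g x ^ a * conj (ψ x) ^ b) ^ q)) =
        (c * (conj (e ^ a * conj c ^ b) ^ q)) * (ψ x * conj ((g x ^ a * conj (ψ x) ^ b) ^ q)) := by
          ring
      _ = _ := by rw [key, one_mul]

end Pool.Agent.Helper53.TA
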