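import Pool.Agent.Helper98.TA.Basic
import Pool.Agent.Helper53.TWR.Base

/-!
Row HQC of the sheet TA (MP_7a8f48_an): adjoining roots to the hull.
-/

set_option linter.unusedSectionVars false

open MeasureTheory Filter Topology Finset
open scoped ComplexConjugate

namespace Pool.Agent.Helper53.TA

open Pool.Agent.Helper98.TW
open Pool.Agent.Helper98.TA
open Pool.Agent.Helper40.TWM (St)
open Pool.Agent.Helper98.GY (JY)
open Pool.Agent.Helper53.TWR (am_cm)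

section

variable {Ω : Type} [m0 : MeasurableSpace Ω] {μ : Measure Ω} {S S' : Ω → Ω} {p q : ℕ}
  {κ : Measure (Ω × Ω)} {D : SA Ω}

/-- the roots of the functions in `D` -/
def Rt (μ : Measure Ω) (S : Ω → Ω) (p q : ℕ) (D : SA Ω) : Set (Ω → ℂ) :=
  {ψ | UF μ ψ ∧ Inc μ D S^[p] ψ ∧ ∃ M : ℕ, 1 ≤ M ∧ Nat.Coprime M q ∧ AM μ D fun x => ψ x ^ M}

theorem grp_Rt : Grp μ (Rt μ S p q D) where
  uf := fun _ h => h.1
  one := by
    refine ⟨uf_one, Pool.Agent.Helper98.TA.inc_one, 1, le_rfl, Nat.coprime_one_left q, ?_⟩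
    exact am_congr (am_const 1) (Eventually.of_forall fun x => by simp)
  mul := by
    rintro φ ⟨hφ, hφi, M, hM, hMq, hφM⟩ ψ ⟨hψ, hψi, M', hM', hMq', hψM⟩
    refine ⟨hφ.mul hψ, inc_mul hφi hψi, M * M', Nat.mul_pos hM hM', Nat.Coprime.mul_left hMq hMq',
      ?_⟩
    refine am_congr (am_mul (am_pow hφM M') (am_pow hψM M)) (Eventually.of_forall fun x => ?_)
    show (φ x ^ M) ^ M' * (ψ x ^ M') ^ M = (φ x * ψ x) ^ (M * M')
    rw [mul_pow, ← pow_mul, ← pow_mul, mul_comm M' M]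
  inv := by
    rintro φ ⟨hφ, hφi, M, hM, hMq, hφM⟩
    refine ⟨hφ.conj, inc_conj hφi, M, hM, hMq, ?_⟩
    exact am_congr (am_conj hφM) (Eventually.of_forall fun x => by simp)

theorem uf_comp (hR : MeasurePreserving S μ μ) {ψ : Ω → ℂ} (h : UF μ ψ) :
    UF μ fun x => ψ (S x) :=
  ⟨h.1.comp hR.measurable, hR.quasiMeasurePreserving.ae h.2⟩

/-- the inverse commutes with the powers -/
theorem comm_inv (hS : Sys μ S S') (p : ℕ) : ∀ᵐ x ∂μ, S' (S^[p] x) = S^[p] (S' x) := by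
  have h1 := hS.mp'.quasiMeasurePreserving.ae ((hS.mp.iterate p).quasiMeasurePreserving.ae hS.l)
  filter_upwards [hS.r, h1] with x hx h2
  conv_lhs => rw [← hx]
  rw [← Function.iterate_succ_apply, Function.iterate_succ_apply']
  exact h2

theorem Rt_S (hS : Sys μ S S') (hD : IA μ D S S') {φ : Ω → ℂ} (h : φ ∈ Rt μ S p q D) :
    (fun x => φ (S x)) ∈ Rt μ S p q D := by
  obtain ⟨hφ, hφi, M, hM, hMq, hφM⟩ := h
  refine ⟨uf_comp hS.mp hφ, ?_, M, hM, hMq, (hD.2 _ hφM).1⟩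
  refine am_congr (hD.2 _ hφi).1 (Eventually.of_forall fun x => ?_)
  show φ (S^[p] (S x)) * conj (φ (S x)) = φ (S (S^[p] x)) * conj (φ (S x))
  rw [← Function.iterate_succ_apply, Function.iterate_succ_apply']

theorem Rt_S' (hS : Sys μ S S') (hD : IA μ D S S') {φ : Ω → ℂ} (h : φ ∈ Rt μ S p q D) :
    (fun x => φ (S' x)) ∈ Rt μ S p q D := by
  obtain ⟨hφ, hφi, M, hM, hMq, hφM⟩ := h
  refine ⟨uf_comp hS.mp' hφ, ?_, M, hM, hMq, (hD.2 _ hφM).2⟩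
  refine am_congr (hD.2 _ hφi).2 ?_
  filter_upwards [comm_inv hS p] with x hx
  show φ (S^[p] (S' x)) * conj (φ (S' x)) = φ (S' (S^[p] x)) * conj (φ (S' x))
  rw [hx]

variable [IsProbabilityMeasure μ]

theorem st_HQC (hBGN : ST_BGN) (hLT : ST_LT) : ST_HQC := by
  intro Ω _ μ _ S S' p q κ D hSt hq hJ hD hQ Ψ hΨ
  have hΨ' : Ψ = Rt μ S p q D := hΨ
  clear hΨ
  subst hΨ'
  have hS : Sys μ S S' := St.s1 hSt
  have hprob := hJ.prob
  refine ⟨?_, ?_⟩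
  · refine hBGN Ω μ S S' D (Rt μ S p q D) hS hD fun φ hφ => ⟨hφ.1.1, ?_, ?_⟩
    · exact am_jo_right (am_sg (Rt_S hS hD hφ))
    · exact am_jo_right (am_sg (Rt_S' hS hD hφ))
  · intro ψ hψ hψi M hM hMq hV
    have hR := sys_jy hS hJ
    have hA : IA κ (jo (B2 Ω) (J1 D)) (Prod.map S^[p] S^[q]) (Prod.map S'^[p] S'^[q]) :=
      ia_jo hR (ia_B2 hS hJ) (ia_J1 hS hJ hD)
    have hincD : Inc μ D S^[p] ψ := by
      have h1 : Inc μ bo S^[p] ψ := inc_iter (ia_bo hS) hS hψ hψi p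
      exact inc_mono lq_bo h1
    have hinc1 : ∀ {φ : Ω → ℂ}, Inc μ D S^[p] φ →
        Inc κ (jo (B2 Ω) (J1 D)) (Prod.map S^[p] S^[q]) (fun z => φ z.1) := by
      intro φ h
      exact am_jo_right (am_cm (jy_mp1 hJ) h)
    have hV' : AM κ (jo (jo (B2 Ω) (J1 D))
        (sg {ψ | ∃ φ ∈ Rt μ S p q D, ψ = fun z : Ω × Ω => φ z.1})) (fun z => ψ z.1 ^ M) := by
      rw [jo_assoc]
      have := cm_sg (Prod.fst : Ω × Ω → Ω) D (Rt μ S p q D)
      unfold Vi J1 at hV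
      rw [this] at hV
      exact hV
    obtain ⟨φ1, hφ1, h1⟩ := hLT (Ω × Ω) κ (Prod.map S^[p] S^[q]) (Prod.map S'^[p] S'^[q])
      (jo (B2 Ω) (J1 D)) {ψ | ∃ φ ∈ Rt μ S p q D, ψ = fun z : Ω × Ω => φ z.1}
      (fun z => ψ z.1 ^ M) hR hJ.erg hA (grp_comp (jy_mp1 hJ) grp_Rt)
      (by
        rintro g ⟨φ, hφ, rfl⟩
        exact hinc1 hφ.2.1)
      (uf_J1 hJ (hψ.pow M)) hV' (inc_pow (hinc1 hincD) M)
    obtain ⟨φ, hφ, rfl⟩ := hφ1
    obtain ⟨hφu, hφi, M', hM', hMq', hφM⟩ := hφ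
    refine hQ ψ hψ hψi (M * M') (Nat.mul_pos hM hM') (Nat.Coprime.mul_left hMq hMq') ?_
    have h2 : AM κ (jo (B2 Ω) (J1 D)) (fun z => φ z.1 ^ M') :=
      am_jo_right (am_cm (jy_mp1 hJ) hφM)
    refine am_congr (am_mul (am_pow h1 M') h2) ?_
    filter_upwards [(uf_J1 hJ hφu).conj_mul] with z hz
    show (ψ z.1 ^ M * conj (φ z.1)) ^ M' * φ z.1 ^ M' = ψ z.1 ^ (M * M')
    rw [← mul_pow, mul_assoc, hz, mul_one, ← pow_mul]

end

end Pool.Agent.Helper53.TA
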