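import Pool.Agent.Helper98.TA.Stmts2
import Pool.Agent.Helper98.TA.Basic
import Pool.Agent.Helper53.GY.MHQ
import Pool.Agent.Helper73.TWR.Tool

/-!
Row RCI of the sheet TA (MP_7a8f48_an): relative independence over larger algebras.
-/

set_option linter.unusedSectionVars false

open MeasureTheory Filter Topology Finset
open scoped ComplexConjugate

namespace Pool.Agent.Helper53.TA

open Pool.Agent.Helper98.TW
open Pool.Agent.Helper98.TA
open Pool.Agent.Helper40.TWM (St)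
open Pool.Agent.Helper98.GY (JY)
open Pool.Agent.Helper53.TWR (am_cm ce_lq ce_am)
open Pool.Agent.Helper53.GY (ce_cm)

section

variable {Ω : Type} [m0 : MeasurableSpace Ω] {μ : Measure Ω} [IsProbabilityMeasure μ]

/-- conditional expectations given a join -/
theorem jo_zero {𝒜 ℬ : SA Ω} {F : Ω → ℂ} (hA : Lm 𝒜) (hB : Lm ℬ) (hF : Integrable F μ)
    (h : ∀ s t : Set Ω, MeasurableSet[𝒜] s → MeasurableSet[ℬ] t → ∫ x in s ∩ t, F x ∂μ = 0) :
    μ[F|jo 𝒜 ℬ] =ᵐ[μ] 0 := by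
  have hJ : Lm (jo 𝒜 ℬ) := lm_jo hA hB
  have hle : @LE.le (MeasurableSpace Ω) _ (jo 𝒜 ℬ) m0 := hJ
  have : IsFiniteMeasure (μ.trim hle) := isFiniteMeasure_trim hle
  have : SigmaFinite (μ.trim hle) := IsFiniteMeasure.toSigmaFinite _
  have hgen : (jo 𝒜 ℬ : MeasurableSpace Ω) = MeasurableSpace.generateFrom
      {u | ∃ s t : Set Ω, MeasurableSet[𝒜] s ∧ MeasurableSet[ℬ] t ∧ u = s ∩ t} := by
    refine le_antisymm (α := MeasurableSpace Ω) ?_ ?_
    · refine sup_le (α := MeasurableSpace Ω) ?_ ?_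
      · intro s hs
        exact MeasurableSpace.measurableSet_generateFrom
          ⟨s, Set.univ, hs, MeasurableSet.univ, by simp⟩
      · intro t ht
        exact MeasurableSpace.measurableSet_generateFrom
          ⟨Set.univ, t, MeasurableSet.univ, ht, by simp⟩
    · refine MeasurableSpace.generateFrom_le ?_
      rintro u ⟨s, t, hs, ht, rfl⟩
      exact (le_jo_left s hs).inter (le_jo_right t ht)
  have hpi : IsPiSystem
      {u | ∃ s t : Set Ω, MeasurableSet[𝒜] s ∧ MeasurableSet[ℬ] t ∧ u = s ∩ t} := by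
    rintro u ⟨s, t, hs, ht, rfl⟩ u' ⟨s', t', hs', ht', rfl⟩ -
    exact ⟨s ∩ s', t ∩ t', hs.inter hs', ht.inter ht', Set.inter_inter_inter_comm s t s' t'⟩
  have key : ∀ u : Set Ω, MeasurableSet[jo 𝒜 ℬ] u → ∫ x in u, F x ∂μ = 0 := by
    have htot : ∫ x, F x ∂μ = 0 := by
      have := h Set.univ Set.univ MeasurableSet.univ MeasurableSet.univ
      simpa using this
    intro u hu
    refine @MeasurableSpace.induction_on_inter Ω (jo 𝒜 ℬ)
      (fun u _ => ∫ x in u, F x ∂μ = 0) _ hgen hpi ?_ ?_ ?_ ?_ u hu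
    · simp
    · rintro _ ⟨s, t, hs, ht, rfl⟩
      exact h s t hs ht
    · intro u hu ih
      have h1 := setIntegral_compl (hJ u hu) hF
      rw [h1, htot, ih, sub_zero]
    · intro v hd hv ih
      rw [integral_iUnion (fun i => hJ _ (hv i)) hd hF.integrableOn]
      simp [ih]
  symm
  refine ae_eq_condExp_of_forall_setIntegral_eq hle hF
    (fun s _ _ => (integrable_zero Ω ℂ μ).integrableOn) ?_
    (@stronglyMeasurable_zero Ω ℂ (jo 𝒜 ℬ) _ _).aestronglyMeasurable
  intro s hs _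
  rw [key s hs]
  simp

end

theorem st_RCI : ST_RCI := by
  intro Ω m0 μ _ S S' s E p q κ hSt hs hE hsE hRi hp hq hJ F hF
  have hprob := hJ.prob
  have hi : Integrable F μ := Pool.Agent.Helper73.TWR.bf_int hF
  obtain ⟨G, hG, hGE, hGF⟩ := Pool.Agent.Helper73.TWR.ce_bf (μ := μ) hE.1 hF
  have hGi : Integrable G μ := Pool.Agent.Helper73.TWR.bf_int hG
  -- the difference
  have hH : BF (fun x => F x - G x) := by
    obtain ⟨hm, B, hB⟩ := hF
    obtain ⟨hm', B', hB'⟩ := hG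
    exact ⟨hm.sub hm', B + B', fun x => (norm_sub_le _ _).trans (add_le_add (hB x) (hB' x))⟩
  have hHi : Integrable (fun x => F x - G x) μ := hi.sub hGi
  have hH0 : μ[(fun x => F x - G x)|E] =ᵐ[μ] 0 := by
    have e1 := condExp_sub hi hGi E
    have e2 := ce_am hE.1 hGi hGE
    filter_upwards [e1, e2, hGF] with x h1 h2 h3
    have h1' : (μ[(fun x => F x - G x)|E]) x = (μ[F|E] - μ[G|E]) x := h1
    rw [h1']
    simp [h2, h3]
  have hfst := jy_mp1 hJ
  have hE1 : Lm (J1 E) := lm_J1 hE.1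
  have hs1 : Lm (J1 s) := lm_J1 hs.1
  have hs2 : Lm (J2 s) := lm_J2 hs.1
  have hHκ : Integrable (fun z : Ω × Ω => F z.1 - G z.1) κ :=
    hfst.integrable_comp_of_integrable hHi
  have hzero : κ[(fun z : Ω × Ω => F z.1 - G z.1)|jo (J1 E) (J2 s)] =ᵐ[κ] 0 := by
    refine jo_zero hE1 hs2 hHκ ?_
    rintro u v ⟨A, hA, rfl⟩ ⟨B, hB, rfl⟩
    have hAm : MeasurableSet A := hE.1 A hA
    have hBm : MeasurableSet B := hs.1 B hB
    set K : Ω → ℂ := fun x => Pool.Agent.Helper73.TWR.ind A x * (F x - G x) with hK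
    have hindm : Measurable (Pool.Agent.Helper73.TWR.ind A) := measurable_const.indicator hAm
    have hind1 : ∀ x, ‖Pool.Agent.Helper73.TWR.ind A x‖ ≤ 1 := by
      intro x
      by_cases h : x ∈ A <;> simp [Pool.Agent.Helper73.TWR.ind, h]
    have hKb : BF K := by
      obtain ⟨hm, B', hB'⟩ := hH
      refine ⟨hindm.mul hm, B', fun x => ?_⟩
      rw [hK]
      simp only [norm_mul]
      calc _ ≤ 1 * ‖F x - G x‖ := mul_le_mul_of_nonneg_right (hind1 x) (norm_nonneg _)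
        _ ≤ B' := by rw [one_mul]; exact hB' x
    have hKi : Integrable K μ := Pool.Agent.Helper73.TWR.bf_int hKb
    have hK0 : μ[K|E] =ᵐ[μ] 0 := by
      have e1 := Pool.Agent.Helper73.TWR.pull (μ := μ) (𝒜 := E)
        (Pool.Agent.Helper73.TWR.am_ind μ hA) hKi hHi
      filter_upwards [e1, hH0] with x h1 h2
      have h1' : (μ[K|E]) x = Pool.Agent.Helper73.TWR.ind A x *
        (μ[(fun x => F x - G x)|E]) x := h1
      rw [h1', h2]
      simp
    have hK1 : μ[K|s] =ᵐ[μ] 0 := ce_lq hE.1 hs.1 hsE hKi hK0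
    have e1 := hRi p q κ hp hq hJ K hKb
    have e2 := ce_cm hfst hs.1 hKi
    have e3 : κ[(fun z => K z.1)|jo (J1 s) (J2 s)] =ᵐ[κ] 0 := by
      have h4 := hfst.quasiMeasurePreserving.ae hK1
      filter_upwards [e1, e2, h4] with z h1 h2 h3
      rw [h1]
      have : (κ[(fun z => K z.1)|J1 s]) z = (μ[K|s]) z.1 := h2
      rw [this, h3]
      rfl
    have hJs : Lm (jo (J1 s) (J2 s)) := lm_jo hs1 hs2
    have hle : @LE.le (MeasurableSpace (Ω × Ω)) _ (jo (J1 s) (J2 s)) _ := hJs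
    have : IsFiniteMeasure (κ.trim hle) := isFiniteMeasure_trim hle
    have : SigmaFinite (κ.trim hle) := IsFiniteMeasure.toSigmaFinite _
    have hKκ : Integrable (fun z : Ω × Ω => K z.1) κ := hfst.integrable_comp_of_integrable hKi
    have hBs : MeasurableSet[jo (J1 s) (J2 s)] ((Prod.snd : Ω × Ω → Ω) ⁻¹' B) :=
      le_jo_right _ ⟨B, hB, rfl⟩
    have h5 : ∫ z in (Prod.snd : Ω × Ω → Ω) ⁻¹' B, K z.1 ∂κ = 0 := by
      rw [← setIntegral_condExp hle hKκ hBs]
      have : ∫ z in (Prod.snd : Ω × Ω → Ω) ⁻¹' B, (κ[(fun z => K z.1)|jo (J1 s) (J2 s)]) z ∂κ =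
          ∫ z in (Prod.snd : Ω × Ω → Ω) ⁻¹' B, (0 : ℂ) ∂κ :=
        integral_congr_ae (ae_restrict_of_ae e3)
      rw [this]
      simp
    have hAp : MeasurableSet ((Prod.fst : Ω × Ω → Ω) ⁻¹' A) := measurable_fst hAm
    have hBp : MeasurableSet ((Prod.snd : Ω × Ω → Ω) ⁻¹' B) := measurable_snd hBm
    rw [← h5, ← integral_indicator (hAp.inter hBp), ← integral_indicator hBp]
    refine integral_congr_ae (Eventually.of_forall fun z => ?_)
    by_cases hz2 : z.2 ∈ B <;> by_cases hz1 : z.1 ∈ A <;>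
      simp [hK, Pool.Agent.Helper73.TWR.ind, hz1, hz2, Set.indicator]
  -- conclusion
  have hGκ : Integrable (fun z : Ω × Ω => G z.1) κ := hfst.integrable_comp_of_integrable hGi
  have hJE : Lm (jo (J1 E) (J2 s)) := lm_jo hE1 hs2
  have hGm : AM κ (jo (J1 E) (J2 s)) (fun z => G z.1) := am_jo_left (am_cm hfst hGE)
  have e1 := condExp_add hHκ hGκ (jo (J1 E) (J2 s))
  have e2 := ce_am hJE hGκ hGm
  have e3 := ce_cm hfst hE.1 hi
  have e4 := hfst.quasiMeasurePreserving.ae hGF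
  have e5 : κ[fun z => F z.1|jo (J1 E) (J2 s)] =ᵐ[κ]
      κ[(fun z : Ω × Ω => F z.1 - G z.1) + (fun z => G z.1)|jo (J1 E) (J2 s)] := by
    refine condExp_congr_ae (Eventually.of_forall fun z => ?_)
    simp
  filter_upwards [e1, e2, e3, e4, e5, hzero] with z h1 h2 h3 h4 h5 h6
  rw [h5, h1]
  have h3' : (κ[(fun z => F z.1)|J1 E]) z = (μ[F|E]) z.1 := h3
  rw [h3', Pi.add_apply, h6, h2, ← h4]
  simp

end Pool.Agent.Helper53.TA
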